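import Pool.Agent.N139.MS.Stm

/-!
# Project MS, ROT (worker: helper284)
-/

set_option autoImplicit false
set_option linter.unusedSectionVars false

open scoped InnerProductSpace

namespace Pool.Agent.N284.MS

variable {H : Type} [NormedAddCommGroup H] [InnerProductSpace ℂ H] [CompleteSpace H]
    [FiniteDimensional ℂ H]

lemma ROT_pyth (V : Submodule ℂ H) (x : H) :
    ‖x - V.starProjection x‖ ^ 2 = ‖x‖ ^ 2 - ‖V.starProjection x‖ ^ 2 := by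
  have h1 : ⟪x - V.starProjection x, V.starProjection x⟫_ℂ = 0 :=
    V.starProjection_inner_eq_zero x _ (V.starProjection_apply_mem x)
  have h2 : ‖(x - V.starProjection x) + V.starProjection x‖ ^ 2 =
      ‖x - V.starProjection x‖ ^ 2 + ‖V.starProjection x‖ ^ 2 := by
    rw [norm_add_sq (𝕜 := ℂ), h1]
    simp
  rw [sub_add_cancel] at h2
  linarith

lemma ROT_proj_inner (V : Submodule ℂ H) (x v : H) (hv : v ∈ V) :
    ⟪V.starProjection x, v⟫_ℂ = ⟪x, v⟫_ℂ := by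
  have h1 : ⟪x - V.starProjection x, v⟫_ℂ = 0 := V.starProjection_inner_eq_zero x v hv
  rw [inner_sub_left] at h1
  exact (sub_eq_zero.1 h1).symm

theorem ROT_core (V : Submodule ℂ H) (T : unitary (H →L[ℂ] H)) (ε : ℝ) (hε : ε < 1)
    (h : ∀ v ∈ V, ‖(T : H →L[ℂ] H) v - V.starProjection ((T : H →L[ℂ] H) v)‖ ≤ ε * ‖v‖) :
    ∀ v ∈ V, ‖((T⁻¹ : unitary (H →L[ℂ] H)) : H →L[ℂ] H) v -
      V.starProjection (((T⁻¹ : unitary (H →L[ℂ] H)) : H →L[ℂ] H) v)‖ ≤ ε * ‖v‖ := by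
  intro v hv
  obtain ⟨T', hT'⟩ : ∃ T' : H →L[ℂ] H, T' = (T : H →L[ℂ] H) := ⟨_, rfl⟩
  obtain ⟨R, hR⟩ : ∃ R : H →L[ℂ] H, R = ((T⁻¹ : unitary (H →L[ℂ] H)) : H →L[ℂ] H) := ⟨_, rfl⟩
  rw [← hR]
  rw [← hT'] at h
  have hTR : ∀ x, T' (R x) = x := by
    intro x
    have : T' * R = 1 := by
      rw [hT', hR, ← Submonoid.coe_mul, mul_inv_cancel, Submonoid.coe_one]
    have h2 := congrArg (fun A : H →L[ℂ] H => A x) this
    simpa using h2
  have hTn : ∀ x, ‖T' x‖ = ‖x‖ := fun x => by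
    rw [hT']; exact ContinuousLinearMap.norm_map_of_mem_unitary T.2 x
  have hRn : ∀ x, ‖R x‖ = ‖x‖ := fun x => by
    rw [hR]; exact ContinuousLinearMap.norm_map_of_mem_unitary (T⁻¹).2 x
  have hTi : ∀ x y, ⟪T' x, T' y⟫_ℂ = ⟪x, y⟫_ℂ := fun x y => by
    rw [hT']; exact ContinuousLinearMap.inner_map_map_of_mem_unitary T.2 x y
  rcases eq_or_ne v 0 with h0 | h0
  · subst h0
    simp
  have hvn : 0 < ‖v‖ := norm_pos_iff.2 h0
  have hε0 : 0 ≤ ε := by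
    have h1 := (norm_nonneg _).trans (h v hv)
    by_contra hcon
    push Not at hcon
    nlinarith
  have hlow : ∀ u ∈ V, (1 - ε ^ 2) * ‖u‖ ^ 2 ≤ ‖V.starProjection (T' u)‖ ^ 2 := by
    intro u hu
    have h1 := ROT_pyth V (T' u)
    have h2 := pow_le_pow_left₀ (norm_nonneg _) (h u hu) 2
    rw [h1, hTn] at h2
    nlinarith
  have h1ε : 0 < 1 - ε ^ 2 := by nlinarith
  let A : V →ₗ[ℂ] V := (V.orthogonalProjectionOnto : H →L[ℂ] V).toLinearMap ∘ₗ T'.toLinearMap ∘ₗ V.subtype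
  have hA : ∀ u : V, ((A u : V) : H) = V.starProjection (T' (u : H)) := fun u => rfl
  have hinj : Function.Injective A := by
    rw [injective_iff_map_eq_zero]
    intro u hu
    have h1 := hlow u u.2
    rw [← hA, hu] at h1
    have h2 : ‖(u : H)‖ ^ 2 ≤ 0 := by
      have : (1 - ε ^ 2) * ‖(u : H)‖ ^ 2 ≤ 0 := by simpa using h1
      nlinarith [sq_nonneg ‖(u : H)‖]
    have h3 : ‖(u : H)‖ = 0 := by
      have := sq_nonneg ‖(u : H)‖
      exact pow_eq_zero_iff (two_ne_zero) |>.1 (le_antisymm h2 this)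
    exact Subtype.ext (norm_eq_zero.1 h3)
  have hsurj : Function.Surjective A := LinearMap.injective_iff_surjective.1 hinj
  obtain ⟨u, hu⟩ := hsurj ⟨v, hv⟩
  have hu' : V.starProjection (T' (u : H)) = v := by rw [← hA, hu]
  -- the inner product
  have h2 : ‖v‖ ^ 2 ≤ ‖(u : H)‖ * ‖V.starProjection (R v)‖ := by
    have e1 : ⟪v, v⟫_ℂ = ⟪(u : H), V.starProjection (R v)⟫_ℂ := by
      calc ⟪v, v⟫_ℂ = ⟪V.starProjection (T' (u : H)), v⟫_ℂ := by rw [hu']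
        _ = ⟪T' (u : H), v⟫_ℂ := ROT_proj_inner V _ v hv
        _ = ⟪T' (u : H), T' (R v)⟫_ℂ := by rw [hTR]
        _ = ⟪(u : H), R v⟫_ℂ := hTi _ _
        _ = ⟪(u : H), V.starProjection (R v)⟫_ℂ := by
            rw [← inner_conj_symm, ← inner_conj_symm (u : H) (V.starProjection (R v)),
              ROT_proj_inner V _ _ u.2]
    have e2 : ‖⟪v, v⟫_ℂ‖ = ‖v‖ ^ 2 := by
      rw [inner_self_eq_norm_sq_to_K]
      simp
    rw [← e2, e1]
    exact norm_inner_le_norm _ _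
  have h3 := hlow u u.2
  rw [hu'] at h3
  have h4 := ROT_pyth V (R v)
  rw [hRn] at h4
  have hpn : 0 ≤ ‖V.starProjection (R v)‖ := norm_nonneg _
  have hun : 0 ≤ ‖(u : H)‖ := norm_nonneg _
  -- (1 - ε²) ‖v‖² ≤ ‖P R v‖²
  have h5 : (1 - ε ^ 2) * ‖v‖ ^ 2 ≤ ‖V.starProjection (R v)‖ ^ 2 := by
    have h6 : (‖v‖ ^ 2) ^ 2 ≤ (‖(u : H)‖ * ‖V.starProjection (R v)‖) ^ 2 :=
      pow_le_pow_left₀ (by positivity) h2 2
    have h7 : (1 - ε ^ 2) * (‖v‖ ^ 2) ^ 2 ≤ ‖v‖ ^ 2 * ‖V.starProjection (R v)‖ ^ 2 := by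
      calc (1 - ε ^ 2) * (‖v‖ ^ 2) ^ 2 ≤
            (1 - ε ^ 2) * (‖(u : H)‖ * ‖V.starProjection (R v)‖) ^ 2 := by gcongr
        _ = ((1 - ε ^ 2) * ‖(u : H)‖ ^ 2) * ‖V.starProjection (R v)‖ ^ 2 := by ring
        _ ≤ ‖v‖ ^ 2 * ‖V.starProjection (R v)‖ ^ 2 := by gcongr
    have h8 : 0 < ‖v‖ ^ 2 := by positivity
    have h9 : ‖v‖ ^ 2 * ((1 - ε ^ 2) * ‖v‖ ^ 2) ≤ ‖v‖ ^ 2 * ‖V.starProjection (R v)‖ ^ 2 := by
      linarith
    exact le_of_mul_le_mul_left h9 h8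
  have h10 : ‖R v - V.starProjection (R v)‖ ^ 2 ≤ (ε * ‖v‖) ^ 2 := by
    rw [h4, mul_pow]
    linarith
  exact le_of_sq_le_sq h10 (by positivity)

theorem t_ROT : Pool.Agent.N139.MS.S_ROT := by
  intro H _ _ _ _ V T ε hε h
  exact ROT_core V T ε hε h

end Pool.Agent.N284.MS
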